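import Pool.Agent.Helper56_MG.Base1
import Pool.Agent.Helper56_MG.Stmts

/-!
# Menger productivity, module PFS: perfect subsets of projections of closed relations
-/

open Set

namespace Pool.Agent.MG.H13

theorem mem_bS_subT_iff {T : Set Node} {t : Node} {x : R} :
    x ∈ bS (subT T t) ↔ x ∈ bS T ∧ On t x := by
  refine ⟨mem_bS_subT, fun ⟨h1, h2⟩ n => ⟨h1 n, ?_⟩⟩
  have h3 : On (pre x n) x := by
    unfold On
    rw [length_pre]
  exact h3.comparable h2

theorem on_pre (x : R) (n : ℕ) : On (pre x n) x := by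
  unfold On
  rw [length_pre]

/-- two different nodes of the same length: the last common node -/
theorem exists_split : ∀ (w w' : Node), w.length = w'.length → w ≠ w' →
    ∃ (t : Node) (b : Bool), t ++ [b] <+: w ∧ t ++ [!b] <+: w' ∧
      ∀ v, v <+: w → v <+: w' → v <+: t
  | [], [], _, h => absurd rfl h
  | [], a :: w', h, _ => by simp at h
  | a :: w, [], h, _ => by simp at h
  | a :: w, a' :: w', hl, hne => by
    by_cases ha : a = a'
    · subst ha
      have hne' : w ≠ w' := fun h => hne (by rw [h])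
      have hl' : w.length = w'.length := by simpa using hl
      obtain ⟨t, b, h1, h2, h3⟩ := exists_split w w' hl' hne'
      refine ⟨a :: t, b, ?_, ?_, ?_⟩
      · rw [List.cons_append, List.cons_prefix_cons]
        exact ⟨rfl, h1⟩
      · rw [List.cons_append, List.cons_prefix_cons]
        exact ⟨rfl, h2⟩
      · intro v hv hv'
        rcases v with _ | ⟨c, v⟩
        · exact List.nil_prefix
        · rw [List.cons_prefix_cons] at hv hv' ⊢
          exact ⟨hv.1, h3 v hv.2 hv'.2⟩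
    · refine ⟨[], a, ?_, ?_, ?_⟩
      · rw [List.nil_append, List.cons_prefix_cons]
        exact ⟨rfl, List.nil_prefix⟩
      · have : (!a) = a' := by
          cases a <;> cases a' <;> simp_all
        rw [List.nil_append, this, List.cons_prefix_cons]
        exact ⟨rfl, List.nil_prefix⟩
      · intro v hv hv'
        rcases v with _ | ⟨c, v⟩
        · exact List.nil_prefix
        · rw [List.cons_prefix_cons] at hv hv'
          exact absurd (hv.1.symm.trans hv'.1) ha

/-- the finite Baire category theorem in a perfect tree -/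
theorem exists_cover {T : Set Node} (hT : Good false T) (Q : Node → Set Node) :
    ∀ (L : List Node) (u : Node), u ∈ T →
      (∀ s ∈ bS (subT T u), ∃ w ∈ L, s ∈ bS (Q w)) →
      ∃ w ∈ L, ∃ u' ∈ T, u <+: u' ∧ ∀ s ∈ bS (subT T u'), s ∈ bS (Q w)
  | [], u, hu, h => by
    obtain ⟨x, hx, hux⟩ := hT.exists_branch hu
    obtain ⟨w, hw, _⟩ := h x (mem_bS_subT_iff.2 ⟨bd_subset_bS hx, hux⟩)
    simp at hw
  | w :: L, u, hu, h => by
    by_cases hc : ∀ s ∈ bS (subT T u), s ∈ bS (Q w)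
    · exact ⟨w, List.mem_cons_self, u, hu, List.prefix_rfl, hc⟩
    · push Not at hc
      obtain ⟨s, hs, hsQ⟩ := hc
      have : ∃ n, pre s n ∉ Q w := by
        by_contra hcon
        push Not at hcon
        exact hsQ hcon
      obtain ⟨n, hn⟩ := this
      obtain ⟨hs1, hs2⟩ := mem_bS_subT_iff.1 hs
      set u' := pre s (max n u.length) with hu'
      have huu' : u <+: u' := by
        have := (on_iff_prefix (x := s) (le_max_right n u.length)).1 hs2
        exact this
      have hu'T : u' ∈ T := hs1 _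
      obtain ⟨w', hw', u'', hu'', h1, h2⟩ := exists_cover hT Q L u' hu'T (fun s' hs' => by
        obtain ⟨h3, h4⟩ := mem_bS_subT_iff.1 hs'
        have h5 : On u s' := h4.of_prefix huu'
        obtain ⟨w', hw', h6⟩ := h s' (mem_bS_subT_iff.2 ⟨h3, h5⟩)
        rcases List.mem_cons.1 hw' with rfl | h7
        · exfalso
          apply hn
          have h8 : pre s' (max n u.length) = pre s (max n u.length) := by
            have := h4
            unfold On at this
            rwa [hu', length_pre] at this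
          have h9 : pre s' n = pre s n := by
            rw [← take_pre s' (le_max_left n u.length), h8, take_pre s (le_max_left n u.length)]
          rw [← h9]
          exact h6 n
        · exact ⟨w', h7, h6⟩)
      exact ⟨w', List.mem_cons_of_mem _ hw', u'', hu'', huu'.trans h1, h2⟩

theorem exists_nodes (m : ℕ) : ∃ L : List Node, ∀ w : Node, w.length = m → w ∈ L := by
  have h : {w : Node | w.length = m}.Finite := List.finite_length_eq Bool m
  exact ⟨h.toFinset.toList, fun w hw => by simpa using hw⟩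

/-- `PS` -/
def PS (T : Set Node) (H : Set (Node × Node)) (E : Set Node) : Set Node :=
  {v | ∃ u ∈ T, subT T u ⊆ prT1 (on2 H (subT E v))}

theorem ps_iff (hRel : RelStmt) {T : Set Node} (hT : Good false T) {H : Set (Node × Node)}
    {E : Set Node} {v u : Node} (hu : u ∈ T) : subT T u ⊆ prT1 (on2 H (subT E v)) ↔
      ∀ s ∈ bS T, On u s → ∃ x ∈ bS E, On v x ∧ (s, x) ∈ rb H := by
  obtain ⟨-, -, h1, -, -, h2, -⟩ := hRel
  have key : bS (prT1 (on2 H (subT E v))) = {s | ∃ x ∈ bS E, On v x ∧ (s, x) ∈ rb H} := by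
    rw [h1]
    ext s
    simp only [mem_ofPred_eq, h2, mem_bS_subT_iff]
    constructor
    · rintro ⟨x, h3, h4, h5⟩
      exact ⟨x, h4, h5, h3⟩
    · rintro ⟨x, h4, h5, h3⟩
      exact ⟨x, h3, h4, h5⟩
  constructor
  · intro h s hs hus
    have h3 : s ∈ bS (prT1 (on2 H (subT E v))) := bS_mono h (mem_bS_subT_iff.2 ⟨hs, hus⟩)
    rw [key] at h3
    exact h3
  · intro h
    refine (hT.subT hu).subset_of_bd ?_
    rw [bd_false, key]
    intro s hs
    obtain ⟨h3, h4⟩ := mem_bS_subT_iff.1 hs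
    exact h s h3 h4

/-- the closed set of the points of `E` which are related to a point of `T` -/
theorem bX_eq (hRel : RelStmt) (T : Set Node) (H : Set (Node × Node)) (E : Set Node) :
    bS (prT2 (on1 (on2 H E) T)) = {x | x ∈ bS E ∧ ∃ s ∈ bS T, (s, x) ∈ rb H} := by
  obtain ⟨-, -, -, h1, h2, h3, -⟩ := hRel
  rw [h1]
  ext x
  simp only [mem_ofPred_eq, h2, h3]
  constructor
  · rintro ⟨s, ⟨h4, h5⟩, h6⟩
    exact ⟨h5, s, h6, h4⟩
  · rintro ⟨h5, s, h6, h4⟩
    exact ⟨s, ⟨h4, h5⟩, h6⟩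

theorem On.pre_mem {w : Node} {x : R} {Q : Set Node} (h : On w x) (hx : x ∈ bS Q) : w ∈ Q := by
  have := hx w.length
  rwa [h] at this

theorem step (hRel : RelStmt) {T : Set Node} (hT : Good false T) {H : Set (Node × Node)}
    (hH : Fnl H) {E : Set Node} {v u : Node} (hu : u ∈ T)
    (hg : ∀ s ∈ bS T, On u s → ∃ x ∈ bS E, On v x ∧ (s, x) ∈ rb H) :
    ∃ t, v <+: t ∧ ∀ b : Bool, ∃ u' ∈ T,
      ∀ s ∈ bS T, On u' s → ∃ x ∈ bS E, On (t ++ [b]) x ∧ (s, x) ∈ rb H := by
  obtain ⟨c, hcT, huc, hc0, hc1⟩ := hT.spl u hu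
  set uu : Bool → Node := fun b => c ++ [b] with huu
  have huuT : ∀ b, uu b ∈ T := by
    intro b
    cases b
    · exact hc0
    · exact hc1
  have hule : ∀ b, u <+: uu b := fun b => huc.trans (List.prefix_append _ _)
  -- the two closed sets
  set P : Bool → Set R := fun b => {x | x ∈ bS (subT E v) ∧ ∃ s ∈ bS (subT T (uu b)), (s, x) ∈ rb H}
    with hP
  have hPcl : ∀ b, P b = bS (prT2 (on1 (on2 H (subT E v)) (subT T (uu b)))) := fun b =>
    (bX_eq hRel _ _ _).symm
  have hdisj : ∀ x, x ∈ P false → x ∈ P true → False := by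
    rintro x ⟨-, s, hs, hsx⟩ ⟨-, s', hs', hsx'⟩
    have h1 := hH s s' x hsx hsx'
    subst h1
    have h2 := (mem_bS_subT_iff.1 hs).2
    have h3 := (mem_bS_subT_iff.1 hs').2
    unfold On at h2 h3
    simp only [huu, List.length_append, List.length_cons, List.length_nil] at h2 h3
    rw [h2] at h3
    simp at h3
  -- nodes which meet both sets
  set W : Set Node := {w | (∃ x ∈ P false, On w x) ∧ ∃ x ∈ P true, On w x} with hW
  have hWd : ∀ s a, s ++ [a] ∈ W → s ∈ W := by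
    rintro s a ⟨⟨x, hx, h1⟩, ⟨x', hx', h2⟩⟩
    exact ⟨⟨x, hx, h1.of_prefix (List.prefix_append _ _)⟩,
      ⟨x', hx', h2.of_prefix (List.prefix_append _ _)⟩⟩
  have hm : ∃ m, ∀ w ∈ W, w.length ≠ m := by
    by_contra hcon
    push Not at hcon
    obtain ⟨x, hx⟩ := exists_branch_of_infinite W hWd hcon
    refine hdisj x ?_ ?_
    · rw [hPcl]
      intro n
      obtain ⟨⟨x', hx', h1⟩, -⟩ := hx n
      rw [hPcl] at hx'
      exact On.pre_mem h1 hx'
    · rw [hPcl]
      intro n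
      obtain ⟨-, ⟨x', hx', h1⟩⟩ := hx n
      rw [hPcl] at hx'
      exact On.pre_mem h1 hx'
  obtain ⟨m0, hm0⟩ := hm
  have hm1 : ∀ w ∈ W, w.length < m0 := by
    intro w hw
    by_contra hcon
    push Not at hcon
    have h1 : w.take m0 ∈ W := by
      obtain ⟨⟨x, hx, h1⟩, ⟨x', hx', h2⟩⟩ := hw
      exact ⟨⟨x, hx, h1.of_prefix (List.take_prefix _ _)⟩,
        ⟨x', hx', h2.of_prefix (List.take_prefix _ _)⟩⟩
    exact hm0 _ h1 (by rw [List.length_take]; omega)
  set m := max m0 v.length with hmdef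
  obtain ⟨L, hL⟩ := exists_nodes m
  have hex : ∀ b, ∃ w, w.length = m ∧ v <+: w ∧ (∃ x ∈ P b, On w x) ∧ ∃ u' ∈ T,
      ∀ s ∈ bS T, On u' s → ∃ x ∈ bS E, On w x ∧ (s, x) ∈ rb H := by
    intro b
    obtain ⟨w, hw, u', hu'T, huu', hcov⟩ := exists_cover hT
      (fun w => prT1 (on2 H (subT (subT E v) w))) (L.filter fun w => decide (w.length = m))
      (uu b) (huuT b) (fun s hs => by
        obtain ⟨hs1, hs2⟩ := mem_bS_subT_iff.1 hs
        obtain ⟨x, hx, hvx, hsx⟩ := hg s hs1 (hs2.of_prefix (hule b))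
        refine ⟨pre x m, ?_, ?_⟩
        · rw [List.mem_filter]
          exact ⟨hL _ (length_pre _ _), by simp⟩
        · obtain ⟨-, -, h1, -, -, h2, -⟩ := hRel
          rw [h1]
          refine ⟨x, (h2 _ _ _ _).2 ⟨hsx, ?_⟩⟩
          exact mem_bS_subT_iff.2 ⟨mem_bS_subT_iff.2 ⟨hx, hvx⟩, on_pre x m⟩)
    have hwm : w.length = m := by
      have := (List.mem_filter.1 hw).2
      simpa using this
    have hcov' : ∀ s ∈ bS T, On u' s → ∃ x, x ∈ bS E ∧ On v x ∧ On w x ∧ (s, x) ∈ rb H := by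
      intro s hs hus
      have h3 := hcov s (mem_bS_subT_iff.2 ⟨hs, hus⟩)
      obtain ⟨-, -, h1, -, -, h2, -⟩ := hRel
      rw [h1] at h3
      obtain ⟨x, hx⟩ := h3
      obtain ⟨h4, h5⟩ := (h2 _ _ _ _).1 hx
      obtain ⟨h6, h7⟩ := mem_bS_subT_iff.1 h5
      obtain ⟨h8, h9⟩ := mem_bS_subT_iff.1 h6
      exact ⟨x, h8, h9, h7, h4⟩
    obtain ⟨s0, hs0, hus0⟩ := hT.exists_branch hu'T
    obtain ⟨x0, hx0, hvx0, hwx0, hsx0⟩ := hcov' s0 (bd_subset_bS hs0) hus0
    refine ⟨w, hwm, ?_, ⟨x0, ⟨mem_bS_subT_iff.2 ⟨hx0, hvx0⟩, s0,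
      mem_bS_subT_iff.2 ⟨bd_subset_bS hs0, hus0.of_prefix huu'⟩, hsx0⟩, hwx0⟩, u', hu'T,
      fun s hs hus => ?_⟩
    · have h4 : v.length ≤ w.length := by rw [hwm]; exact le_max_right _ _
      have h5 := (on_iff_prefix (x := x0) h4).1 hvx0
      have h6 : pre x0 w.length = w := hwx0
      rwa [h6] at h5
    · obtain ⟨x, h4, -, h5, h6⟩ := hcov' s hs hus
      exact ⟨x, h4, h5, h6⟩
  obtain ⟨w0, hl0, hv0, hx0, u0, hu0, hc0'⟩ := hex false
  obtain ⟨w1, hl1, hv1, hx1, u1, hu1, hc1'⟩ := hex true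
  have hne : w0 ≠ w1 := by
    rintro rfl
    have h1 := hm1 w0 ⟨hx0, hx1⟩
    have h2 : m0 ≤ m := le_max_left _ _
    omega
  obtain ⟨t, b, ht0, ht1, hmax⟩ := exists_split w0 w1 (hl0.trans hl1.symm) hne
  refine ⟨t, hmax v hv0 hv1, fun b' => ?_⟩
  by_cases hb : b' = b
  · subst hb
    refine ⟨u0, hu0, fun s hs hus => ?_⟩
    obtain ⟨x, h1, h2, h3⟩ := hc0' s hs hus
    exact ⟨x, h1, h2.of_prefix ht0, h3⟩
  · have hb' : b' = !b := by
      cases b <;> cases b' <;> simp_all
    rw [hb']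
    refine ⟨u1, hu1, fun s hs hus => ?_⟩
    obtain ⟨x, h1, h2, h3⟩ := hc1' s hs hus
    exact ⟨x, h1, h2.of_prefix ht1, h3⟩

theorem ps_good (hRel : RelStmt) {T : Set Node} (hT : Good false T) {H : Set (Node × Node)}
    (hH : Fnl H) {E : Set Node} (hg : ∀ s ∈ bS T, ∃ x ∈ bS E, (s, x) ∈ rb H) :
    Good false (PS T H E) ∧ ∀ x ∈ bS (PS T H E), x ∈ bS E ∧ ∃ s ∈ bS T, (s, x) ∈ rb H := by
  refine ⟨⟨?_, ?_, ?_⟩, ?_⟩
  · refine ⟨[], hT.nil, (ps_iff hRel hT hT.nil).2 fun s hs _ => ?_⟩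
    obtain ⟨x, h1, h2⟩ := hg s hs
    exact ⟨x, h1, rfl, h2⟩
  · rintro s a ⟨u, hu, h⟩
    refine ⟨u, hu, (ps_iff hRel hT hu).2 fun s' hs' hus' => ?_⟩
    obtain ⟨x, h1, h2, h3⟩ := (ps_iff hRel hT hu).1 h s' hs' hus'
    exact ⟨x, h1, h2.of_prefix (List.prefix_append _ _), h3⟩
  · rintro v ⟨u, hu, h⟩
    obtain ⟨t, hvt, ht⟩ := step hRel hT hH hu ((ps_iff hRel hT hu).1 h)
    have h1 : ∀ b, t ++ [b] ∈ PS T H E := by
      intro b
      obtain ⟨u', hu', h2⟩ := ht b
      exact ⟨u', hu', (ps_iff hRel hT hu').2 h2⟩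
    refine ⟨t, ?_, hvt, h1 false, h1 true⟩
    obtain ⟨u', hu', h2⟩ := ht false
    refine ⟨u', hu', (ps_iff hRel hT hu').2 fun s hs hus => ?_⟩
    obtain ⟨x, h3, h4, h5⟩ := h2 s hs hus
    exact ⟨x, h3, h4.of_prefix (List.prefix_append _ _), h5⟩
  · intro x hx
    have h1 : x ∈ bS (prT2 (on1 (on2 H E) T)) := by
      intro n
      obtain ⟨u, hu, h⟩ := hx n
      obtain ⟨s, hs, hus⟩ := hT.exists_branch hu
      obtain ⟨x', h3, h4, h5⟩ := (ps_iff hRel hT hu).1 h s (bd_subset_bS hs) hus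
      have h6 : x' ∈ bS (prT2 (on1 (on2 H E) T)) := by
        rw [bX_eq hRel]
        exact ⟨h3, s, bd_subset_bS hs, h5⟩
      exact On.pre_mem h4 h6
    rw [bX_eq hRel] at h1
    exact h1

theorem ps_meas (hRel : RelStmt) :
    Measurable (fun z : (Set Node × Set (Node × Node)) × Set Node => PS z.1.1 z.1.2 z.2) := by
  obtain ⟨-, -, -, -, -, -, -, -, -, hm1, -, -, hm2, -⟩ := hRel
  rw [measurable_node_iff]
  intro v
  have e : {z : (Set Node × Set (Node × Node)) × Set Node | v ∈ PS z.1.1 z.1.2 z.2} =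
      ⋃ u : Node, ({z | u ∈ z.1.1} ∩ ⋂ t : Node, ({z | t ∈ subT z.1.1 u}ᶜ ∪
        {z | t ∈ prT1 (on2 z.1.2 (subT z.2 v))})) := by
    ext z
    simp only [PS, mem_ofPred_eq, mem_iUnion, mem_inter_iff, mem_iInter, mem_union, mem_compl_iff]
    constructor
    · rintro ⟨u, hu, h⟩
      exact ⟨u, hu, fun t => (em (t ∈ subT z.1.1 u)).symm.imp id fun ht => h ht⟩
    · rintro ⟨u, hu, h⟩
      exact ⟨u, hu, fun t ht => (h t).resolve_left fun hn => hn ht⟩
  rw [e]
  refine MeasurableSet.iUnion fun u => MeasurableSet.inter ?_ (MeasurableSet.iInter fun t =>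
    MeasurableSet.union (MeasurableSet.compl ?_) ?_)
  · exact (measurable_fst.comp measurable_fst) (measurableSet_mem_node u)
  · exact ((measurable_subT u).comp (measurable_fst.comp measurable_fst))
      (measurableSet_mem_node t)
  · have h1 : Measurable (fun z : (Set Node × Set (Node × Node)) × Set Node =>
        prT1 (on2 z.1.2 (subT z.2 v))) :=
      hm1.comp (hm2.comp ((measurable_snd.comp measurable_fst).prodMk
        ((measurable_subT v).comp measurable_snd)))
    exact h1 (measurableSet_mem_node t)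

/-- PFS -/
theorem pfs (hRel : RelStmt) : PfsStmt :=
  ⟨PS, ps_meas hRel, fun _ _ _ hT hH hg => ps_good hRel hT hH hg⟩

end Pool.Agent.MG.H13
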